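import Pool.Agent.H602.KS.Final
import Pool.Agent.H602.KS.AllN
import Pool.Agent.H602.MD.Model

/-!
# Progression-free subsets of sets with dense models in cyclic groups
-/

set_option autoImplicit false

open Finset
open scoped Pointwise

namespace Pool.Agent.H602.HF

open Pool.Agent.H617R3.AP Pool.Agent.H602.KS Pool.Agent.H602.MD

section
variable {G : Type*} [AddCommGroup G]

/-- values of a Freiman homomorphism to a cyclic group in a short interval -/
theorem val_add {m : ℕ} [NeZero m] {h : ℕ} (hh : 2 * h ≤ m + 1) {a b c d : ZMod m} (ha : a.val < h)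
    (hb : b.val < h) (hc : c.val < h) (hd : d.val < h) (he : a + b = c + d) :
    (a.val : ℤ) + b.val = c.val + d.val := by
  have h1 : ((a.val + b.val : ℕ) : ZMod m) = ((c.val + d.val : ℕ) : ZMod m) := by
    push_cast
    rw [ZMod.natCast_zmod_val, ZMod.natCast_zmod_val, ZMod.natCast_zmod_val,
      ZMod.natCast_zmod_val, he]
  rw [ZMod.natCast_eq_natCast_iff', Nat.mod_eq_of_lt (by omega), Nat.mod_eq_of_lt (by omega)] at h1
  omega

open Classical in
/-- random translates of an extremal set in a cyclic group -/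
theorem translateZ (htf : ∀ (n : ℕ) (x : G), n ≠ 0 → n • x = 0 → x = 0) {k : ℕ} (hk : 3 ≤ k) {m : ℕ}
    (hm : 0 < m) {S : Finset G} {φ : G → ZMod m} (hφ : IsoN 2 S φ) (w : G → ℝ) :
    ∃ A ⊆ S, FreeIn k A ∧ (r k ((m + 1) / 2) : ℝ) * ∑ x ∈ S, w x ≤ m * ∑ x ∈ A, w x := by
  have : NeZero m := ⟨hm.ne'⟩
  set h := (m + 1) / 2 with hh
  have hhm : h ≤ m := by omega
  obtain ⟨A₀, hA1, hA2, hA3⟩ := exists_opt_range (k := k) (by omega) h
  set A : ZMod m → Finset G := fun t => S.filter (fun x => (φ x - t).val ∈ A₀) with hA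
  have hfree : ∀ t, FreeIn k (A t) := by
    intro t
    have hmem : ∀ x ∈ A t, x ∈ S ∧ (φ x - t).val ∈ A₀ := fun x hx => mem_filter.1 hx
    have hlt : ∀ x ∈ A t, (φ x - t).val < h := fun x hx => mem_range.1 (hA1 (hmem x hx).2)
    have hiso : IsoG (A t) (fun x => ((φ x - t).val : ℤ)) := by
      intro a ha b hb c hc d hd
      rw [← hφ.two le_rfl (hmem a ha).1 (hmem b hb).1 (hmem c hc).1 (hmem d hd).1]
      constructor
      · intro he
        refine val_add (h := h) (by omega) (hlt a ha) (hlt b hb) (hlt c hc) (hlt d hd) ?_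
        have e1 : φ a - t + (φ b - t) = φ a + φ b - t - t := by ring
        have e2 : φ c - t + (φ d - t) = φ c + φ d - t - t := by ring
        rw [e1, e2, he]
      · intro he
        simp only at he
        have h1 : (((φ a - t).val + (φ b - t).val : ℕ) : ZMod m) =
            (((φ c - t).val + (φ d - t).val : ℕ) : ZMod m) := by
          congr 1
          exact_mod_cast he
        push_cast at h1
        rw [ZMod.natCast_zmod_val, ZMod.natCast_zmod_val, ZMod.natCast_zmod_val,
          ZMod.natCast_zmod_val] at h1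
        have e1 : φ a + φ b = φ a - t + (φ b - t) + t + t := by ring
        have e2 : φ c + φ d = φ c - t + (φ d - t) + t + t := by ring
        rw [e1, e2, h1]
    have hf0 : FreeIn k (A₀.image (fun n : ℕ => (n : ℤ))) := by
      refine free_of_nat (k := k) (by omega) hA2 (s := 0) fun x hx => ?_
      obtain ⟨n, hn, rfl⟩ := mem_image.1 hx
      exact ⟨n, hn, (add_zero _).symm⟩
    have h1 := hiso.free_preimage htf (k := k) (by omega) hf0
    have h2 : (A t).filter (fun x => ((φ x - t).val : ℤ) ∈ A₀.image (fun n : ℕ => (n : ℤ))) = A t := by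
      apply filter_true_of_mem
      intro x hx
      exact mem_image.2 ⟨_, (hmem x hx).2, rfl⟩
    rwa [h2] at h1
  by_contra hcon
  push Not at hcon
  have h1 : ∀ t ∈ (univ : Finset (ZMod m)), (m : ℝ) * ∑ x ∈ A t, w x <
      (r k h : ℝ) * ∑ x ∈ S, w x := fun t _ => hcon (A t) (filter_subset _ _) (hfree t)
  have h2 := sum_lt_sum_of_nonempty univ_nonempty h1
  rw [sum_const, card_univ, ZMod.card, nsmul_eq_mul, ← mul_sum] at h2
  have h3 := lt_of_mul_lt_mul_left h2 (Nat.cast_nonneg m)
  have h4 : ∑ t : ZMod m, ∑ x ∈ A t, w x = ∑ x ∈ S, (r k h : ℝ) * w x := by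
    have e1 : ∀ t ∈ (univ : Finset (ZMod m)), ∑ x ∈ A t, w x =
        ∑ x ∈ S, if (φ x - t).val ∈ A₀ then w x else 0 := by
      intro t _
      rw [hA, sum_filter]
    rw [sum_congr rfl e1, sum_comm]
    refine sum_congr rfl fun x _ => ?_
    rw [← sum_filter, sum_const, nsmul_eq_mul]
    congr 1
    rw [← hA3]
    have e2 : (univ : Finset (ZMod m)).filter (fun t => (φ x - t).val ∈ A₀) =
        A₀.image (fun n : ℕ => φ x - (n : ZMod m)) := by
      ext t
      rw [mem_filter, mem_image]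
      constructor
      · rintro ⟨-, ht⟩
        refine ⟨_, ht, ?_⟩
        rw [ZMod.natCast_zmod_val]
        ring
      · rintro ⟨n, hn, rfl⟩
        refine ⟨mem_univ _, ?_⟩
        have hnm : n < m := lt_of_lt_of_le (mem_range.1 (hA1 hn)) hhm
        rw [sub_sub_cancel, ZMod.val_natCast, Nat.mod_eq_of_lt hnm]
        exact hn
    rw [e2, card_image_of_injOn]
    intro a ha b hb hab
    have ham : a < m := lt_of_lt_of_le (mem_range.1 (hA1 ha)) hhm
    have hbm : b < m := lt_of_lt_of_le (mem_range.1 (hA1 hb)) hhm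
    simp only [sub_right_inj] at hab
    rw [ZMod.natCast_eq_natCast_iff', Nat.mod_eq_of_lt ham, Nat.mod_eq_of_lt hbm] at hab
    exact hab
  rw [h4, ← mul_sum] at h3
  exact lt_irrefl _ h3

/-- progression-free subsets are not larger than in an interval of the size of the group -/
theorem upperZ {k : ℕ} (hk : 3 ≤ k) {m : ℕ} (hm : 0 < m) {S : Finset G} {φ : G → ZMod m}
    (hφ : IsoN 2 S φ) {A : Finset G} (hAS : A ⊆ S) (hA : FreeIn k A) : A.card ≤ r k m := by
  classical
  have : NeZero m := ⟨hm.ne'⟩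
  have hcard : (A.image (fun x => (φ x).val + 1)).card = A.card := by
    apply card_image_of_injOn
    intro a ha b hb hab
    simp only [Nat.add_right_cancel_iff] at hab
    exact hφ.inj le_rfl (hAS ha) (hAS hb) (ZMod.val_injective m hab)
  rw [← hcard]
  apply card_le_r
  · intro n hn
    obtain ⟨x, -, rfl⟩ := mem_image.1 hn
    have := ZMod.val_lt (φ x)
    rw [mem_Icc]
    omega
  · intro a d hd hall
    have hex : ∀ i : ℕ, ∃ x : G, i < k → x ∈ A ∧ (φ x).val + 1 = a + i * d := by
      intro i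
      by_cases hi : i < k
      · obtain ⟨x, hx, hx2⟩ := mem_image.1 (hall i hi)
        exact ⟨x, fun _ => ⟨hx, hx2⟩⟩
      · exact ⟨0, fun h => absurd h hi⟩
    choose x hx using hex
    have h3 : ∀ i, i + 2 < k → x i + x (i + 2) = x (i + 1) + x (i + 1) := by
      intro i hi
      obtain ⟨a0, b0⟩ := hx i (by omega)
      obtain ⟨a1, b1⟩ := hx (i + 1) (by omega)
      obtain ⟨a2, b2⟩ := hx (i + 2) hi
      refine (hφ.two le_rfl (hAS a0) (hAS a2) (hAS a1) (hAS a1)).1 ?_
      have h4 : ((φ (x i)).val + (φ (x (i + 2))).val : ℕ) =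
          (φ (x (i + 1))).val + (φ (x (i + 1))).val := by
        have e1 : (i + 1) * d = i * d + d := by ring
        have e2 : (i + 2) * d = i * d + 2 * d := by ring
        rw [e1] at b1
        rw [e2] at b2
        omega
      have h5 := congrArg (Nat.cast : ℕ → ZMod m) h4
      push_cast at h5
      rw [ZMod.natCast_zmod_val, ZMod.natCast_zmod_val, ZMod.natCast_zmod_val] at h5
      exact h5
    have hlin : ∀ i, i < k → x i = x 0 + i • (x 1 - x 0) := by
      intro i
      induction i using Nat.strong_induction_on with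
      | _ i ih =>
        intro hi
        match i, ih, hi with
        | 0, _, _ => rw [zero_nsmul, add_zero]
        | 1, _, _ => rw [one_nsmul]; abel
        | (j + 2), ih, hi =>
          have h1 := ih j (by omega) (by omega)
          have h2 := ih (j + 1) (by omega) (by omega)
          have h4 := h3 j hi
          have h5 : x (j + 2) = x (j + 1) + x (j + 1) - x j := by
            rw [← h4]
            abel
          rw [h5, h1, h2, add_nsmul, add_nsmul, one_nsmul, two_nsmul]
          abel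
    refine hA (x 0) (x 1 - x 0) ?_ fun i hi => ?_
    · intro h0
      rw [sub_eq_zero] at h0
      have h1 := (hx 1 (by omega)).2
      have h2 := (hx 0 (by omega)).2
      rw [h0] at h1
      omega
    · rw [← hlin i hi]
      exact (hx i hi).1

end

/-- the upper bound, for all numbers of elements, with a polynomial constant -/
theorem upperP {G : Type*} [AddCommGroup G] [DecidableEq G]
    (htf : ∀ (n : ℕ) (x : G), n ≠ 0 → n • x = 0 → x = 0) {k : ℕ} (hk : 3 ≤ k) {K : ℝ} {S : Finset G}
    (hK : ((S + S).card : ℝ) ≤ K * S.card) {A : Finset G} (hAS : A ⊆ S) (hA : FreeIn k A) :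
    (A.card : ℝ) ≤ (2 * K) ^ 100001 * r k S.card := by
  classical
  rcases S.eq_empty_or_nonempty with h0 | hS
  · subst h0
    rw [subset_empty.1 hAS]
    have : r k 0 = 0 := by
      have := r_le_self (k := k) 0
      omega
    simp only [card_empty, Nat.cast_zero, this, mul_zero]
    exact le_rfl
  have hK1 : 1 ≤ K := one_le_K hS hK
  obtain ⟨m, φ, hm0, hm, hφ⟩ := model htf le_rfl hS hK
  set N := S.card with hN
  have hNpos : 0 < N := hS.card_pos
  have hN0 : (0 : ℝ) < N := by exact_mod_cast hNpos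
  have hle := upperZ hk hm0 hφ hAS hA
  have h1 := r_le (k := k) (by omega) m hNpos
  have h3 : (A.card : ℝ) ≤ r k m := by exact_mod_cast hle
  refine h3.trans (h1.trans ?_)
  have h4 : ((m : ℝ) + N) * ((r k N : ℝ) / N) = ((m : ℝ) / N + 1) * r k N := by
    field_simp
  rw [h4]
  apply mul_le_mul_of_nonneg_right _ (Nat.cast_nonneg _)
  have h5 : (m : ℝ) / N ≤ (2 * K) ^ 100000 := by
    rw [div_le_iff₀ hN0]
    refine hm.trans (le_of_eq ?_)
    norm_num
  have h6 : (1 : ℝ) ≤ (2 * K) ^ 100000 := one_le_pow₀ (by linarith)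
  have h7 : (2 * K) ^ 100001 = (2 * K) ^ 100000 * (2 * K) := pow_succ _ _
  rw [h7]
  nlinarith

open Classical in
/-- the lower bound, for almost all numbers of elements -/
theorem lowerP {k : ℕ} (hk : 3 ≤ k) {ε : ℝ} (h0 : 0 < ε) :
    ∃ (C : ℝ) (E : Set ℕ),
      (∀ x : ℕ, 2 ≤ x → ∑ N ∈ (Icc 1 x).filter (fun N => N ∈ E), (1 : ℝ) / N ≤
        C * Real.log x ^ (3 / 4 : ℝ)) ∧
      ∀ N : ℕ, 1 ≤ N → N ∉ E → ∀ (G : Type*) [AddCommGroup G],
        (∀ (n : ℕ) (x : G), n ≠ 0 → n • x = 0 → x = 0) → ∀ S : Finset G, S.card = N →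
        ((S + S).card : ℝ) ≤ Real.exp (Real.log N ^ (1 / 4 : ℝ) / 400000) * N →
        ∀ w : G → ℝ, (∀ x, 0 ≤ w x) → ∃ A ⊆ S, FreeIn k A ∧
          ((1 / 2 - ε) * (r k N / N)) * ∑ x ∈ S, w x ≤ ∑ x ∈ A, w x := by
  set τ : ℝ := min ε 1 with hτ
  have hτ0 : 0 < τ := lt_min h0 one_pos
  have hτ1 : τ ≤ 1 := min_le_right _ _
  have hτε : τ ≤ ε := min_le_left _ _
  obtain ⟨C, E, hE, hreg⟩ := regular_wide hk hτ0 hτ1 400000
  refine ⟨C, E, hE, fun N hN hNE G _ htf S hS hdoub w hw => ?_⟩
  obtain ⟨hZN, hreg⟩ := hreg N hN hNE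
  have hqq : qq N = Real.log N ^ (1 / 4 : ℝ) := by
    have hlogN : 0 ≤ Real.log N := Real.log_nonneg (by exact_mod_cast hN)
    unfold qq
    rw [Real.sqrt_eq_rpow, Real.sqrt_eq_rpow, ← Real.rpow_mul hlogN]
    norm_num
  rw [← hqq] at hdoub
  set K : ℝ := Real.exp (qq N / 400000) with hK
  have hSne : S.Nonempty := by
    rw [← card_pos]
    omega
  have hN0 : (0 : ℝ) < N := by exact_mod_cast hN
  obtain ⟨m, φ, hm0, hm, hφ⟩ := model (K := K) htf le_rfl hSne (by rw [hS]; exact hdoub)
  rw [hS] at hm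
  have hmR : (0 : ℝ) < m := by exact_mod_cast hm0
  have hwin : (2 * K) ^ (50000 * 2) ≤ Real.exp (qq N / 2) := by
    have h1 : (2 : ℝ) ≤ Real.exp 1 := by
      have := Real.exp_one_gt_d9
      linarith
    have h2 : 2 * K ≤ Real.exp (1 + qq N / 400000) := by
      rw [Real.exp_add, hK]
      exact mul_le_mul_of_nonneg_right h1 (Real.exp_pos _).le
    calc (2 * K) ^ (50000 * 2) ≤ (Real.exp (1 + qq N / 400000)) ^ (50000 * 2) :=
          pow_le_pow_left₀ (by positivity) h2 _
      _ = Real.exp (100000 * (1 + qq N / 400000)) := by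
          rw [← Real.exp_nat_mul]
          norm_num
      _ ≤ Real.exp (qq N / 2) := by
          apply Real.exp_le_exp.2
          linarith
  have hΛ1 : 1 ≤ Real.exp (qq N / 2) := Real.one_le_exp (by linarith)
  set h := (m + 1) / 2 with hh
  have hhm : h ≤ m := by omega
  have hh2 : m ≤ 2 * h := by omega
  have hh2R : (m : ℝ) ≤ 2 * h := by exact_mod_cast hh2
  have hhmR : (h : ℝ) ≤ m := by exact_mod_cast hhm
  have hNm : N ≤ m := by
    have h1 := hφ.card_image le_rfl
    have h2 : (S.image φ).card ≤ m := by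
      have : NeZero m := ⟨hm0.ne'⟩
      refine (card_le_univ _).trans ?_
      rw [ZMod.card]
    omega
  have hNmR : (N : ℝ) ≤ m := by exact_mod_cast hNm
  have hhpos : (0 : ℝ) < h := by linarith
  have hd : d k N ≤ (1 + τ) * d k h := by
    have h3 : (2 : ℝ) ≤ Real.exp (qq N / 2) := by
      have h4 := Real.add_one_le_exp (qq N / 2)
      linarith
    refine hreg h ?_ ?_ N ?_ ?_
    · nlinarith
    · calc (h : ℝ) ≤ m := hhmR
        _ ≤ (2 * K) ^ (50000 * 2) * N := hm
        _ ≤ Real.exp (qq N / 2) * N := mul_le_mul_of_nonneg_right hwin hN0.le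
    · nlinarith
    · nlinarith
  obtain ⟨A, hAS, hA, hsum⟩ := translateZ htf hk hm0 hφ w
  refine ⟨A, hAS, hA, ?_⟩
  have hW : 0 ≤ ∑ x ∈ S, w x := sum_nonneg fun x _ => hw x
  have hrh : (r k h : ℝ) = d k h * h := by unfold d; field_simp
  have e : (r k N : ℝ) / N = d k N := rfl
  rw [e]
  have hdh : 0 ≤ d k h := by unfold d; positivity
  have hdN : 0 ≤ d k N := by unfold d; positivity
  have h5 : (1 / 2 - ε) * d k N * m ≤ r k h := by
    rw [hrh]
    have h6 : (1 - τ) * d k N ≤ d k h := by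
      have h7 : (1 - τ) * d k N ≤ (1 - τ) * ((1 + τ) * d k h) :=
        mul_le_mul_of_nonneg_left hd (by linarith)
      nlinarith [sq_nonneg τ]
    have h8 : (1 / 2 - ε) * d k N ≤ 1 / 2 * d k h := by nlinarith
    calc (1 / 2 - ε) * d k N * m ≤ 1 / 2 * d k h * m := by gcongr
      _ ≤ 1 / 2 * d k h * (2 * h) := by gcongr
      _ = d k h * h := by ring
  have h6 : (m : ℝ) * ((1 / 2 - ε) * d k N * ∑ x ∈ S, w x) ≤ m * ∑ x ∈ A, w x := by
    calc (m : ℝ) * ((1 / 2 - ε) * d k N * ∑ x ∈ S, w x) =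
        ((1 / 2 - ε) * d k N * m) * ∑ x ∈ S, w x := by ring
      _ ≤ r k h * ∑ x ∈ S, w x := mul_le_mul_of_nonneg_right h5 hW
      _ ≤ _ := hsum
  exact le_of_mul_le_mul_left h6 hmR

end Pool.Agent.H602.HF
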